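import Pool.Agent.Helper86.AN.Stmts

set_option autoImplicit false

/-!
# MP_4042d8_co (Ando): orientation of a 2-regular graph
-/

namespace Pool.Agent.Helper63.AN

open Pool.Agent.Helper86.AN Finset

/-- the other neighbour of `w` -/
theorem ori_nx {V : Type} [Fintype V] [DecidableEq V] (F : SimpleGraph V) [DecidableRel F.Adj]
    (h : F.IsRegularOfDegree 2) (v w : V) : ∃ z, F.Adj v w →
    F.Adj w z ∧ z ≠ v ∧ ∀ y, F.Adj w y → y = v ∨ y = z := by
  by_cases hvw : F.Adj v w
  · have h1 : (F.neighborFinset w).card = 2 := h w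
    obtain ⟨a, b, hab, he⟩ := Finset.card_eq_two.1 h1
    have hm : ∀ y, F.Adj w y ↔ y = a ∨ y = b := by
      intro y
      rw [← SimpleGraph.mem_neighborFinset, he]
      simp
    rcases (hm v).1 hvw.symm with e | e
    · exact ⟨b, fun _ => ⟨(hm b).2 (Or.inr rfl), by rw [e]; exact hab.symm,
        fun y hy => by rw [e]; exact (hm y).1 hy⟩⟩
    · exact ⟨a, fun _ => ⟨(hm a).2 (Or.inl rfl), by rw [e]; exact hab,
        fun y hy => by rw [e]; exact ((hm y).1 hy).symm⟩⟩
  · exact ⟨v, fun h0 => absurd h0 hvw⟩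

/-- selection of one dart at every vertex -/
theorem ori_sel {V : Type} [Fintype V] [DecidableEq V] (F : SimpleGraph V) (nx : V → V → V)
    (hnx : ∀ v w, F.Adj v w → F.Adj w (nx v w) ∧ nx v w ≠ v ∧
      ∀ y, F.Adj w y → y = v ∨ y = nx v w) :
    ∃ P : V → V → Prop, (∀ v w, P v w → F.Adj v w) ∧
      (∀ v w, F.Adj v w → (P w (nx v w) ↔ P v w)) ∧
      ∀ v w, F.Adj v w → (P v w ↔ ¬ P w v) := by
  let D : Type := {p : V × V // F.Adj p.1 p.2}
  let f0 : D → D := fun d => ⟨(d.1.2, nx d.1.1 d.1.2), (hnx d.1.1 d.1.2 d.2).1⟩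
  let r0 : D → D := fun d => ⟨(d.1.2, d.1.1), d.2.symm⟩
  have hr : ∀ d, r0 (r0 d) = d := fun d => rfl
  have hf : ∀ d, f0 (r0 (f0 d)) = r0 d := by
    rintro ⟨⟨v, w⟩, hvw⟩
    refine Subtype.ext ?_
    obtain ⟨h1, h2, h3⟩ := hnx v w hvw
    obtain ⟨k1, k2, k3⟩ := hnx (nx v w) w h1.symm
    have e : nx (nx v w) w = v := by
      rcases k3 v hvw.symm with e | e
      · exact absurd e.symm h2
      · exact e.symm
    change (w, nx (nx v w) w) = (w, v)
    rw [e]
  have hinj : Function.Injective f0 := by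
    intro d d' hd
    have h1 := hf d
    have h2 := hf d'
    rw [hd, h2] at h1
    have h3 := congrArg r0 h1
    rw [hr, hr] at h3
    exact h3.symm
  have hD : Finite D := Subtype.finite
  let ψ : Equiv.Perm D := Equiv.ofBijective f0 (Finite.injective_iff_bijective.1 hinj)
  let R : Equiv.Perm D := ⟨r0, r0, hr, hr⟩
  have hψ : ∀ d, ψ d = f0 d := fun d => rfl
  have hR : ∀ d, R d = r0 d := fun d => rfl
  have hconj : R * ψ * R⁻¹ = ψ⁻¹ := by
    ext1 d
    rw [Equiv.Perm.eq_inv_iff_eq]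
    have e : R⁻¹ d = r0 d := rfl
    rw [Equiv.Perm.mul_apply, Equiv.Perm.mul_apply, e, hψ, hR, hψ, hf, hr]
  have hsc : ∀ d d', ψ.SameCycle d d' → ψ.SameCycle (r0 d) (r0 d') := by
    intro d d' hd
    have h1 := hd.conj (g := R)
    rw [hconj, Equiv.Perm.sameCycle_inv] at h1
    exact h1
  have hrz : ∀ (k : ℤ) d, r0 ((ψ ^ k) d) = (ψ ^ (-k)) (r0 d) := by
    intro k d
    have h1 : R * ψ ^ k * R⁻¹ = ψ ^ (-k) := by
      rw [← conj_zpow, hconj, inv_zpow, zpow_neg]
    have h3 : (R * ψ ^ k * R⁻¹) (r0 d) = r0 ((ψ ^ k) d) := rfl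
    rw [← h3, h1]
  have hnf : ∀ d, ¬ ψ.SameCycle d (r0 d) := by
    rintro d ⟨k, hk⟩
    have key : ∀ j : ℤ, r0 ((ψ ^ j) d) = (ψ ^ (k - j)) d := by
      intro j
      rw [hrz, ← hk, ← Equiv.Perm.mul_apply, ← zpow_add]
      rw [show -j + k = k - j by ring]
    rcases Int.even_or_odd' k with ⟨j, hj | hj⟩
    · have h1 := key j
      rw [show k - j = j by omega] at h1
      have h2 := congrArg (fun t : D => t.1.1) h1
      exact ((ψ ^ j) d).2.ne h2.symm
    · have h1 := key j
      rw [show k - j = 1 + j by omega, zpow_add, zpow_one, Equiv.Perm.mul_apply, hψ] at h1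
      have h2 := congrArg (fun t : D => t.1.2) h1
      exact (hnx _ _ ((ψ ^ j) d).2).2.1 h2.symm
  obtain ⟨f, hfi⟩ := exists_injective_nat (Quotient (Equiv.Perm.SameCycle.setoid ψ))
  have hq : ∀ d d' : D, ψ.SameCycle d d' → f (Quotient.mk _ d) = f (Quotient.mk _ d') :=
    fun d d' h0 => congrArg f (Quotient.sound h0)
  have hq' : ∀ d d' : D, f (Quotient.mk _ d) = f (Quotient.mk _ d') → ψ.SameCycle d d' :=
    fun d d' h0 => Quotient.exact (hfi h0)
  let P : D → Prop := fun d => f (Quotient.mk _ d) < f (Quotient.mk _ (r0 d))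
  have hP1 : ∀ d, P (f0 d) ↔ P d := by
    intro d
    have h1 : ψ.SameCycle (f0 d) d := by
      have : ψ.SameCycle (ψ d) d := Equiv.Perm.sameCycle_apply_left.2 (Equiv.Perm.SameCycle.refl _ _)
      exact this
    have h2 := hsc _ _ h1
    change f (Quotient.mk _ (f0 d)) < f (Quotient.mk _ (r0 (f0 d))) ↔
      f (Quotient.mk _ d) < f (Quotient.mk _ (r0 d))
    rw [hq _ _ h1, hq _ _ h2]
  have hP2 : ∀ d, P d ↔ ¬ P (r0 d) := by
    intro d
    have h1 : f (Quotient.mk _ d) ≠ f (Quotient.mk _ (r0 d)) := fun h0 => hnf d (hq' _ _ h0)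
    change f (Quotient.mk _ d) < f (Quotient.mk _ (r0 d)) ↔
      ¬ f (Quotient.mk _ (r0 d)) < f (Quotient.mk _ d)
    omega
  refine ⟨fun v w => ∃ h : F.Adj v w, P ⟨(v, w), h⟩, fun v w h0 => h0.1, ?_, ?_⟩
  · intro v w hvw
    have h1 := hP1 ⟨(v, w), hvw⟩
    constructor
    · rintro ⟨h2, h3⟩
      exact ⟨hvw, h1.1 h3⟩
    · rintro ⟨h2, h3⟩
      exact ⟨(hnx v w hvw).1, h1.2 h3⟩
  · intro v w hvw
    have h1 := hP2 ⟨(v, w), hvw⟩
    constructor
    · rintro ⟨h2, h3⟩ ⟨h4, h5⟩
      exact h1.1 h3 h5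
    · intro h2
      refine ⟨hvw, h1.2 fun h3 => h2 ⟨hvw.symm, h3⟩⟩

theorem st_ORI : ST_ORI := by
  intro V _ _ F _ hF
  choose nx hnx using ori_nx F hF
  obtain ⟨P, p1, p2, p3⟩ := ori_sel F nx hnx
  have hex : ∀ v, ∃ w, P v w := by
    intro v
    have h1 : (F.neighborFinset v).card = 2 := hF v
    obtain ⟨w, hw⟩ := Finset.card_pos.1 (by omega : 0 < (F.neighborFinset v).card)
    rw [SimpleGraph.mem_neighborFinset] at hw
    by_cases h2 : P v w
    · exact ⟨w, h2⟩
    · have h3 : P w v := (p3 w v hw.symm).2 h2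
      exact ⟨nx w v, (p2 w v hw.symm).2 h3⟩
  choose s0 hs0 using hex
  have huniq : ∀ v w, P v w → s0 v = w := by
    intro v w hvw
    by_contra hne
    have h1 := p1 v w hvw
    have h2 := p1 v (s0 v) (hs0 v)
    have h3 := (hnx w v h1.symm).2.2 (s0 v) h2
    rcases h3 with h3 | h3
    · exact hne h3
    · have h4 := hs0 v
      rw [h3] at h4
      have h5 := (p2 w v h1.symm).1 h4
      exact (p3 v w h1).1 hvw h5
  have hinj : Function.Injective s0 := by
    intro v v' he
    by_contra hne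
    have h1 := hs0 v
    have h2 := hs0 v'
    rw [← he] at h2
    have a1 := p1 _ _ h1
    have a2 := p1 _ _ h2
    rcases (hnx v (s0 v) a1).2.2 v' a2.symm with h3 | h3
    · exact hne h3.symm
    · have h4 := (p2 v (s0 v) a1).2 h1
      rw [← h3] at h4
      exact (p3 _ _ a2).1 h2 h4
  let s : Equiv.Perm V := Equiv.ofBijective s0 (Finite.injective_iff_bijective.1 hinj)
  have hs : ∀ v, s v = s0 v := fun v => rfl
  have hadj : ∀ v w, F.Adj v w ↔ (s v = w ∨ s w = v) := by
    intro v w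
    constructor
    · intro h1
      by_cases h2 : P v w
      · exact Or.inl (huniq v w h2)
      · exact Or.inr (huniq w v ((p3 w v h1.symm).2 h2))
    · rintro (h1 | h1)
      · rw [← h1]
        exact p1 _ _ (hs0 v)
      · rw [← h1]
        exact (p1 _ _ (hs0 w)).symm
  refine ⟨s, hadj, ?_, ?_⟩
  · intro v w
    constructor
    · rintro ⟨i, hi⟩
      have key : ∀ i : ℤ, F.Reachable v ((s ^ i) v) := by
        intro i
        induction i using Int.induction_on with
        | zero => exact SimpleGraph.Reachable.refl _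
        | succ j ih =>
          refine ih.trans (SimpleGraph.Adj.reachable ?_)
          rw [hadj, add_comm, zpow_add, zpow_one, Equiv.Perm.mul_apply]
          exact Or.inl rfl
        | pred j ih =>
          refine ih.trans (SimpleGraph.Adj.reachable ?_)
          rw [hadj]
          refine Or.inr ?_
          rw [← Equiv.Perm.mul_apply, ← zpow_one_add]
          rw [show 1 + (-(j : ℤ) - 1) = -(j : ℤ) by ring]
      rw [← hi]
      exact key i
    · intro h
      rw [SimpleGraph.reachable_iff_reflTransGen] at h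
      induction h with
      | refl => exact Equiv.Perm.SameCycle.refl _ _
      | @tail b c _ hbc ih =>
        refine ih.trans ?_
        rcases (hadj b c).1 hbc with h1 | h1
        · rw [← h1]
          exact Equiv.Perm.sameCycle_apply_right.2 (Equiv.Perm.SameCycle.refl _ _)
        · rw [← h1]
          exact Equiv.Perm.sameCycle_apply_left.2 (Equiv.Perm.SameCycle.refl _ _)
  · intro v
    have h1 := hs0 v
    have h2 := p1 _ _ h1
    refine ⟨h2.ne.symm, fun h3 => ?_⟩
    have h4 := hs0 (s0 v)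
    have h5 : s0 (s0 v) = v := h3
    rw [h5] at h4
    exact (p3 _ _ h2).1 h1 h4

end Pool.Agent.Helper63.AN
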